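import Pool.Agent.V7H85.OK.Spec

/-! Piece CHP of the project for MP_1774d7_an: properties of the set `Ch` of the possible numbers of sign changes. -/

set_option autoImplicit false

namespace Pool.Agent.V7H89.OK

open Finset
open Pool.Agent.V7H85.OK (chg Comp Ch S_CHP)

lemma ext_lt {w : ℕ} (x : Fin w → ℝ) (i : ℕ) (h : i < w) : Pool.Agent.V7H85.OK.ext x i = x ⟨i, h⟩ := by
  simp [Pool.Agent.V7H85.OK.ext, h]

lemma chg_le (n : ℕ) (σ : ℕ → Bool) : chg n σ ≤ n := by
  unfold chg
  refine (card_filter_le _ _).trans ?_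
  simp

lemma ch_sub {w : ℕ} (x : Fin w → ℝ) (a : ℝ) (ha : a ≠ 0) : Ch x ⊆ Ch (a • x) := by
  rintro c ⟨σ, hσ, rfl⟩
  rcases lt_or_gt_of_ne ha with h | h
  · refine ⟨fun i => !σ i, ?_, ?_⟩
    · intro i hi
      have h1 := hσ i hi
      rw [ext_lt _ _ hi] at h1 ⊢
      simp only [Pi.smul_apply, smul_eq_mul]
      constructor
      · intro h3
        have h4 : σ i = false := by simpa using h3
        exact mul_nonneg_of_nonpos_of_nonpos h.le (h1.2 h4)
      · intro h3
        have h4 : σ i = true := by simpa using h3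
        exact mul_nonpos_of_nonpos_of_nonneg h.le (h1.1 h4)
    · unfold chg
      congr 1
      apply filter_congr
      intro i _
      simp
  · refine ⟨σ, ?_, rfl⟩
    intro i hi
    have h1 := hσ i hi
    rw [ext_lt _ _ hi] at h1 ⊢
    simp only [Pi.smul_apply, smul_eq_mul]
    exact ⟨fun h3 => mul_nonneg h.le (h1.1 h3), fun h3 => mul_nonpos_of_nonneg_of_nonpos h.le (h1.2 h3)⟩

theorem t_CHP : S_CHP := by
  intro w x
  have hne : (Ch x).Nonempty := by
    refine ⟨chg w (fun i => decide (0 ≤ Pool.Agent.V7H85.OK.ext x i)), _, ?_, rfl⟩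
    intro i hi
    constructor
    · intro h; simpa using h
    · intro h
      have h1 : ¬ (0 ≤ Pool.Agent.V7H85.OK.ext x i) := by simpa using h
      exact (not_le.mp h1).le
  refine ⟨hne, ?_, ?_, ?_, ?_⟩
  · rintro c ⟨σ, -, rfl⟩
    exact chg_le w σ
  · obtain ⟨ε, hε, h⟩ : ∃ ε : ℝ, 0 < ε ∧ ∀ i : Fin w, x i ≠ 0 → ε ≤ |x i| := by
      rcases (univ.filter fun i : Fin w => x i ≠ 0).eq_empty_or_nonempty with he | hne
      · refine ⟨1, one_pos, fun i hi => ?_⟩
        have h1 : i ∈ univ.filter fun i : Fin w => x i ≠ 0 := mem_filter.mpr ⟨mem_univ i, hi⟩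
        rw [he] at h1
        simp at h1
      · obtain ⟨i0, hi0, hmin⟩ := exists_min_image _ (fun i => |x i|) hne
        exact ⟨|x i0|, abs_pos.mpr (mem_filter.mp hi0).2, fun i hi => hmin i (mem_filter.mpr ⟨mem_univ i, hi⟩)⟩
    refine ⟨ε, hε, ?_⟩
    rintro y hy c ⟨σ, hσ, rfl⟩
    refine ⟨σ, ?_, rfl⟩
    intro i hi
    have h1 := hσ i hi
    rw [ext_lt _ _ hi] at h1 ⊢
    have h2 := hy ⟨i, hi⟩
    rw [abs_lt] at h2
    constructor
    · intro h3
      have h4 := h1.1 h3
      by_contra h5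
      have h5' := not_le.mp h5
      have h6 := h ⟨i, hi⟩ (ne_of_lt h5')
      rw [abs_of_neg h5'] at h6
      linarith
    · intro h3
      have h4 := h1.2 h3
      by_contra h5
      have h5' := not_le.mp h5
      have h6 := h ⟨i, hi⟩ (ne_of_gt h5')
      rw [abs_of_pos h5'] at h6
      linarith
  · intro a ha
    apply Set.Subset.antisymm
    · have h1 := ch_sub (a • x) a⁻¹ (inv_ne_zero ha)
      rwa [smul_smul, inv_mul_cancel₀ ha, one_smul] at h1
    · exact ch_sub x a ha
  · intro h2 h0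
    obtain ⟨c, σ, hσ, -⟩ := hne
    have hc : ∀ b : Bool, Comp w (Pool.Agent.V7H85.OK.ext x) (Function.update σ 0 b) := by
      intro b i hi
      rcases Nat.eq_zero_or_pos i with rfl | hi0
      · rw [ext_lt _ _ hi]
        have h3 : x ⟨0, hi⟩ = 0 := h0
        rw [h3]
        exact ⟨fun _ => le_rfl, fun _ => le_rfl⟩
      · rw [Function.update_of_ne hi0.ne']
        exact hσ i hi
    refine ⟨chg w (Function.update σ 0 (σ 1)), ⟨_, hc _, rfl⟩, chg w (Function.update σ 0 (!σ 1)), ⟨_, hc _, rfl⟩, ?_⟩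
    unfold chg
    apply card_lt_card
    rw [ssubset_iff_of_subset]
    · refine ⟨0, ?_, ?_⟩
      · rw [mem_filter, mem_range]
        refine ⟨by omega, ?_⟩
        simp
      · rw [mem_filter]
        simp
    · intro i hi
      rw [mem_filter] at hi ⊢
      refine ⟨hi.1, ?_⟩
      have hi0 : i ≠ 0 := by
        rintro rfl
        apply hi.2
        simp
      have h3 := hi.2
      rw [Function.update_of_ne hi0, Function.update_of_ne (Nat.succ_ne_zero i)] at h3 ⊢
      exact h3

end Pool.Agent.V7H89.OK
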